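import Mathlib

set_option autoImplicit false

namespace Pool.Agent.H.MP_b81b72_gt

open Set Topology Filter

lemma dudley {G : Type} [NormedAddCommGroup G] [CompleteSpace G] (φ : G →+ ℤ) :
    ∃ δ > 0, ∀ x, ‖x‖ < δ → φ x = 0 := by
  by_contra hcon
  push Not at hcon
  have h1 : ∀ M n : ℕ, ∃ x : G, ‖x‖ < (1 / 2) ^ n / (M + 1) ∧ 0 < φ x := by
    intro M n
    obtain ⟨x, hx, hx'⟩ := hcon ((1 / 2) ^ n / (M + 1)) (by positivity)
    rcases lt_or_gt_of_ne hx' with h | h
    · exact ⟨-x, by rwa [norm_neg], by rw [map_neg]; omega⟩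
    · exact ⟨x, hx, h⟩
  choose X hX hX' using h1
  let st : ℕ → ℕ × ℕ := fun n => Nat.rec (1, 0) (fun n p =>
    (p.1 * (2 * (p.2 + p.1 * (φ (X p.1 n)).toNat) + 1), p.2 + p.1 * (φ (X p.1 n)).toNat)) n
  let M : ℕ → ℕ := fun n => (st n).1
  let S : ℕ → ℕ := fun n => (st n).2
  let x : ℕ → G := fun n => X (M n) n
  have hS : ∀ n, S (n + 1) = S n + M n * (φ (x n)).toNat := fun n => rfl
  have hM : ∀ n, M (n + 1) = M n * (2 * S (n + 1) + 1) := fun n => rfl
  have hMpos : ∀ n, 0 < M n := by
    intro n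
    induction n with
    | zero => exact Nat.one_pos
    | succ n ih => rw [hM]; positivity
  have hSn : ∀ n, n ≤ S n := by
    intro n
    induction n with
    | zero => exact Nat.zero_le _
    | succ n ih =>
      have h2 : 0 < (φ (x n)).toNat := by have := hX' (M n) n; simp only [x]; omega
      have := Nat.mul_pos (hMpos n) h2
      rw [hS]; omega
  have hMS : ∀ n, 2 * S n < M n := by
    intro n
    cases n with
    | zero => exact Nat.one_pos
    | succ n =>
      rw [hM]
      have := Nat.le_mul_of_pos_left (2 * S (n + 1) + 1) (hMpos n)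
      omega
  have hdvd : ∀ n i, M n ∣ M (i + n) := by
    intro n i
    induction i with
    | zero => simp
    | succ i ih => rw [show i + 1 + n = (i + n) + 1 by ring, hM]; exact ih.mul_right _
  have hb : ∀ n k, k ≤ M n → ‖k • x n‖ ≤ (1 / 2) ^ n := by
    intro n k hk
    refine norm_nsmul_le.trans ?_
    have h2 := (hX (M n) n).le
    rw [le_div_iff₀ (by positivity)] at h2
    have h3 : (k : ℝ) ≤ M n + 1 := by exact_mod_cast hk.trans (Nat.le_succ _)
    calc (k : ℝ) * ‖x n‖ ≤ (M n + 1) * ‖x n‖ := by gcongr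
      _ ≤ _ := by rw [mul_comm]; exact h2
  have hsum : Summable fun n => M n • x n :=
    Summable.of_norm_bounded summable_geometric_two fun n => hb n _ le_rfl
  have hsum' : ∀ n, Summable fun i => (M (i + n) / M n) • x (i + n) := fun n =>
    Summable.of_norm_bounded ((summable_nat_add_iff n).2 summable_geometric_two)
      fun i => hb _ _ (Nat.div_le_self _ _)
  have hpart : ∀ n, φ (∑ i ∈ Finset.range n, M i • x i) = S n := by
    intro n
    induction n with
    | zero => simp [S, st]
    | succ n ih =>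
      rw [Finset.sum_range_succ, map_add, ih, hS, map_nsmul]
      have := Int.toNat_of_nonneg (hX' (M n) n).le
      push_cast
      rw [this]; simp [x]
  have key : ∀ n, φ (∑' i, M i • x i) = S n + M n * φ (∑' i, (M (i + n) / M n) • x (i + n)) := by
    intro n
    rw [← hsum.sum_add_tsum_nat_add n, map_add, hpart, ← nsmul_eq_mul, ← map_nsmul,
      ← (hsum' n).tsum_const_smul]
    congr 3
    ext i
    rw [smul_smul, Nat.mul_div_cancel' (hdvd n i)]
  set a := φ (∑' i, M i • x i)
  have h2 := key (a.natAbs + 1)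
  set b := φ (∑' i, (M (i + (a.natAbs + 1)) / M (a.natAbs + 1)) • x (i + (a.natAbs + 1)))
  have h3 := hSn (a.natAbs + 1)
  have h4 := hMS (a.natAbs + 1)
  rcases lt_or_ge b 0 with h | h
  · have : (M (a.natAbs + 1) : ℤ) * b ≤ M (a.natAbs + 1) * (-1) :=
      mul_le_mul_of_nonneg_left (by omega) (by positivity)
    omega
  · have : 0 ≤ (M (a.natAbs + 1) : ℤ) * b := by positivity
    omega

abbrev L1 := lp (fun _ : ℕ => ℝ) 1

def E : AddSubgroup L1 where
  carrier := {f | ∀ n : ℕ, ((n : ℝ) + 1) * f n ∈ range (Int.cast : ℤ → ℝ)}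
  zero_mem' := fun n => ⟨0, by simp⟩
  add_mem' := by
    intro f g hf hg n
    obtain ⟨a, ha⟩ := hf n
    obtain ⟨b, hb⟩ := hg n
    exact ⟨a + b, by simp [ha, hb, mul_add]⟩
  neg_mem' := by
    intro f hf n
    obtain ⟨a, ha⟩ := hf n
    exact ⟨-a, by simp [ha]⟩

lemma ev_cont (n : ℕ) : Continuous fun f : L1 => f n := (lp.lipschitzWith_one_eval 1 n).continuous

lemma E_closed : IsClosed (E : Set L1) := by
  have : (E : Set L1) = ⋂ n : ℕ, (fun f : L1 => ((n : ℝ) + 1) * f n) ⁻¹'
      range (Int.cast : ℤ → ℝ) := by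
    ext f; simp only [mem_iInter]; rfl
  rw [this]
  exact isClosed_iInter fun n => Int.isClosedEmbedding_coe_real.isClosed_range.preimage
    (continuous_const.mul (ev_cont n))

abbrev EE : Type := E

instance : CompleteSpace EE := E_closed.completeSpace_coe

lemma norm_nsmul' (m : ℕ) (x : EE) : ‖m • x‖ = m * ‖x‖ := by
  show ‖m • x.1‖ = m * ‖x.1‖
  rw [← Nat.cast_smul_eq_nsmul ℝ, norm_smul, Real.norm_natCast]

lemma coord_cont (f : EE →+ EE) (n : ℕ) : Continuous fun x => (f x).1 n := by
  choose φ hφ using fun x => (f x).2 n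
  let φ' : EE →+ ℤ := AddMonoidHom.mk' φ (by
    intro a b
    apply Int.cast_injective (α := ℝ)
    simp [hφ, mul_add])
  obtain ⟨δ, hδ, h⟩ := dudley φ'
  let g : EE →+ ℝ := AddMonoidHom.mk' (fun x => (f x).1 n) (by intro a b; simp)
  refine continuous_of_continuousAt_zero g ?_
  refine ContinuousAt.congr (continuousAt_const (y := (0 : ℝ))) ?_
  filter_upwards [Metric.ball_mem_nhds 0 hδ] with x hx
  have h1 : φ x = 0 := h x (by simpa using hx)
  have h2 := hφ x
  rw [h1, Int.cast_zero] at h2
  have : ((n : ℝ) + 1) ≠ 0 := by positivity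
  exact ((mul_eq_zero.1 h2.symm).resolve_left this).symm

lemma norm_le_iff (y : L1) (k : ℝ) (hk : 0 ≤ k) :
    ‖y‖ ≤ k ↔ ∀ s : Finset ℕ, ∑ i ∈ s, ‖y i‖ ≤ k := by
  constructor
  · intro h s
    have := lp.sum_rpow_le_norm_rpow (p := 1) (by simp) y s
    simp only [ENNReal.toReal_one, Real.rpow_one] at this
    exact this.trans h
  · intro h
    refine lp.norm_le_of_forall_sum_le (by simp) hk fun s => ?_
    simpa using h s

lemma endo_cont (f : EE →+ EE) : Continuous f := by
  have hc : ∀ k : ℕ, IsClosed {x | ‖f x‖ ≤ k} := by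
    intro k
    have : {x | ‖f x‖ ≤ k} = ⋂ s : Finset ℕ, {x | ∑ i ∈ s, ‖(f x).1 i‖ ≤ k} := by
      ext x
      simp only [mem_iInter]
      exact norm_le_iff (f x).1 k (by positivity)
    rw [this]
    exact isClosed_iInter fun s => isClosed_le
      (continuous_finsetSum _ fun i _ => (coord_cont f i).norm) continuous_const
  obtain ⟨k, x0, hx0⟩ := nonempty_interior_of_iUnion_of_closed hc
    (eq_univ_of_forall fun x => mem_iUnion.2 (exists_nat_ge ‖f x‖))
  obtain ⟨δ, hδ, hb⟩ := Metric.mem_nhds_iff.1 (mem_interior_iff_mem_nhds.1 hx0)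
  have h2 : ∀ x, ‖x‖ < δ → ‖f x‖ ≤ 2 * k := by
    intro x hx
    have a1 : ‖f (x0 + x)‖ ≤ k := hb (by simpa using hx)
    have a2 : ‖f x0‖ ≤ k := hb (Metric.mem_ball_self hδ)
    have : f x = f (x0 + x) - f x0 := by simp
    rw [this]
    linarith [norm_sub_le (f (x0 + x)) (f x0)]
  refine continuous_of_continuousAt_zero f ?_
  rw [Metric.continuousAt_iff]
  intro ε hε
  obtain ⟨m, hm⟩ := exists_nat_gt (2 * k / ε)
  have hm0 : (0 : ℝ) < m := lt_of_le_of_lt (by positivity) hm
  refine ⟨δ / m, by positivity, fun x hx => ?_⟩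
  rw [dist_zero_right, lt_div_iff₀ hm0] at hx
  have := h2 (m • x) (by rw [norm_nsmul']; linarith)
  rw [map_nsmul, norm_nsmul'] at this
  rw [map_zero, dist_zero_right]
  rw [div_lt_iff₀ hε] at hm
  nlinarith

noncomputable def ee (n : ℕ) : EE := ⟨lp.single 1 n (1 / ((n : ℝ) + 1)), by
  intro m
  by_cases h : m = n
  · subst h
    refine ⟨1, ?_⟩
    rw [lp.single_apply_self]
    field_simp
    simp
  · exact ⟨0, by rw [lp.single_apply_ne _ _ _ h]; simp⟩⟩

lemma norm_ee (n : ℕ) : ‖ee n‖ = 1 / ((n : ℝ) + 1) := by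
  show ‖(lp.single 1 n (1 / ((n : ℝ) + 1)) : L1)‖ = _
  rw [lp.norm_single (by simp), Real.norm_of_nonneg (by positivity)]

lemma not_zd (U : Set EE) (hU : IsClopen U) (h0 : 0 ∈ U) (hb : U ⊆ Metric.ball 0 1) : False := by
  have step : ∀ (n : ℕ) (x : EE), ∃ k : ℕ, x ∈ U → x + k • ee n ∈ U ∧ x + (k + 1) • ee n ∉ U := by
    intro n x
    by_contra hcon
    push Not at hcon
    have h1 : ∀ k : ℕ, x + k • ee n ∈ U := by
      intro k
      induction k with
      | zero => simpa using (hcon 0).1
      | succ k ih => exact (hcon k).2 ih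
    have a1 := hb (h1 0)
    have a2 := hb (h1 (2 * (n + 1)))
    rw [mem_ball_zero_iff] at a1 a2
    have a3 := norm_sub_le (x + (2 * (n + 1)) • ee n) (x + 0 • ee n)
    rw [show x + (2 * (n + 1)) • ee n - (x + 0 • ee n) = (2 * (n + 1)) • ee n by simp,
      norm_nsmul', norm_ee] at a3
    have : ((2 * (n + 1) : ℕ) : ℝ) * (1 / ((n : ℝ) + 1)) = 2 := by push_cast; field_simp
    linarith
  choose k hk using step
  let x : ℕ → EE := fun n => Nat.rec 0 (fun n y => y + k n y • ee n) n
  have hx : ∀ n, x (n + 1) = x n + k n (x n) • ee n := fun n => rfl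
  have hxU : ∀ n, x n ∈ U := by
    intro n
    induction n with
    | zero => exact h0
    | succ n ih => exact (hk n _ ih).1
  let c : ℕ → ℝ := fun n => k n (x n) * (1 / ((n : ℝ) + 1))
  have hxs : ∀ n, (x n).1 = ∑ i ∈ Finset.range n, lp.single 1 i (c i) := by
    intro n
    induction n with
    | zero => simp [x]
    | succ n ih =>
      rw [hx, Finset.sum_range_succ, ← ih, AddSubgroup.coe_add, AddSubgroupClass.coe_nsmul,
        ← Nat.cast_smul_eq_nsmul ℝ]
      simp only [ee, c]
      rw [← lp.single_smul, smul_eq_mul]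
  have hxs' : ∀ n, x n = ∑ i ∈ Finset.range n, k i (x i) • ee i := by
    intro n
    induction n with
    | zero => simp [x]
    | succ n ih => rw [hx, Finset.sum_range_succ, ← ih]
  have hsum : Summable fun i => k i (x i) • ee i := by
    refine Summable.of_norm (summable_of_sum_range_le (c := 1) (fun _ => norm_nonneg _) fun n => ?_)
    have h1 := hb (hxU n)
    rw [mem_ball_zero_iff] at h1
    have h2 := lp.norm_sum_single (p := 1) (E := fun _ : ℕ => ℝ) (by simp) c (Finset.range n)
    simp only [ENNReal.toReal_one, Real.rpow_one] at h2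
    rw [← hxs] at h2
    refine le_trans (le_of_eq ?_) (h2 ▸ h1.le)
    refine Finset.sum_congr rfl fun i _ => ?_
    rw [norm_nsmul', norm_ee, Real.norm_of_nonneg (by positivity)]
  have hlim : Tendsto x atTop (𝓝 (∑' i, k i (x i) • ee i)) := by
    have := hsum.hasSum.tendsto_sum_nat
    simpa only [← hxs'] using this
  have hee : Tendsto ee atTop (𝓝 0) := by
    rw [tendsto_zero_iff_norm_tendsto_zero]
    simpa only [norm_ee] using tendsto_one_div_add_atTop_nhds_zero_nat
  have h1 := hU.1.mem_of_tendsto hlim (Eventually.of_forall hxU)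
  have h2 : Tendsto (fun n => x (n + 1) + ee n) atTop (𝓝 (∑' i, k i (x i) • ee i)) := by
    simpa using (hlim.comp (tendsto_add_atTop_nat 1)).add hee
  refine hU.2.isClosed_compl.mem_of_tendsto h2 (Eventually.of_forall fun n => ?_) h1
  have := (hk n _ (hxU n)).2
  rwa [succ_nsmul, ← add_assoc] at this

noncomputable def TT (G : Type) [AddCommGroup G] : AddGroupTopology G where
  toTopologicalSpace := ⨅ f : G →+ EE, TopologicalSpace.induced f inferInstance
  toIsTopologicalAddGroup := topologicalAddGroup_iInf fun f => topologicalAddGroup_induced f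

lemma TT_fun (G H : Type) [AddCommGroup G] [AddCommGroup H] (f : G →+ H) :
    @Continuous G H (TT G).toTopologicalSpace (TT H).toTopologicalSpace f := by
  refine continuous_iInf_rng.2 fun g => continuous_induced_rng.2 ?_
  exact continuous_iInf_dom (i := g.comp f) continuous_induced_dom

lemma TT_E : (TT EE).toTopologicalSpace = (inferInstance : TopologicalSpace EE) := by
  apply le_antisymm
  · exact (iInf_le _ (AddMonoidHom.id EE)).trans (le_of_eq induced_id)
  · exact le_iInf fun f => continuous_iff_le_induced.1 (endo_cont f)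

instance : Infinite EE := Infinite.of_injective ee (by
  intro a b h
  have := congrArg norm h
  rw [norm_ee, norm_ee, div_eq_div_iff (by positivity) (by positivity)] at this
  exact_mod_cast (show (a : ℝ) = b by linarith))

end Pool.Agent.H.MP_b81b72_gt
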